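import Pool.Agent.helper48.AN.SpecF

/-!
# Project an (MP_263b92_ag), module FH0: the constants of a derivation are the `p`-th powers
-/

namespace AN

open scoped Classical IntermediateField
open Pool.Agent.helper53.AU

noncomputable section

variable {k F : Type} [Field k] [Field F] [Algebra k F]

theorem FH0_Dpow (p : ℕ) [CharP F p] (D : Derivation k F F) (a : F) : D (a ^ p) = 0 := by
  rw [D.leibniz_pow, nsmul_eq_mul, CharP.cast_eq_zero, zero_mul]

theorem FH0_der (p : ℕ) [hp : Fact p.Prime] [CharP F p] (D : Derivation k F F) (x : F) (m : ℕ) (c : ℕ → F) :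
    D (∑ i ∈ Finset.range (m + 1), c i ^ p * x ^ i) =
      (∑ i ∈ Finset.range m, (((i + 1 : ℕ) : F) * c (i + 1)) ^ p * x ^ i) * D x := by
  have hterm : ∀ i : ℕ, D (c i ^ p * x ^ i) = (i : F) * c i ^ p * x ^ (i - 1) * D x := by
    intro i
    rw [D.leibniz, FH0_Dpow p D (c i), D.leibniz_pow, smul_zero, add_zero, nsmul_eq_mul, smul_eq_mul, smul_eq_mul]
    ring
  rw [map_sum, Finset.sum_congr rfl (fun i _ => hterm i), Finset.sum_range_succ']
  rw [Finset.sum_mul]
  simp only [Nat.cast_zero, zero_mul, add_zero, Nat.add_sub_cancel]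
  refine Finset.sum_congr rfl fun i _ => ?_
  have h1 : ((i + 1 : ℕ) : F) ^ p = ((i + 1 : ℕ) : F) := by
    have := map_natCast (frobenius F p) (i + 1)
    rwa [frobenius_def] at this
  rw [mul_pow, h1]

theorem FH0_indep (p : ℕ) [hp : Fact p.Prime] [CharP F p] (D : Derivation k F F) (x : F) (hx : D x ≠ 0) :
    ∀ m ≤ p, ∀ c : ℕ → F, ∑ i ∈ Finset.range m, c i ^ p * x ^ i = 0 → ∀ i < m, c i = 0 := by
  intro m
  induction m with
  | zero => intro _ c _ i hi; exact absurd hi (Nat.not_lt_zero i)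
  | succ m ih =>
    intro hm c hc
    have h1 := FH0_der p D x m c
    rw [hc, map_zero] at h1
    have h2 := (mul_eq_zero.mp h1.symm).resolve_right hx
    have h3 := ih (by omega) (fun i => ((i + 1 : ℕ) : F) * c (i + 1)) h2
    have h4 : ∀ i < m, c (i + 1) = 0 := by
      intro i hi
      refine (mul_eq_zero.mp (h3 i hi)).resolve_left ?_
      rw [CharP.cast_eq_zero_iff F p]
      intro hd
      have := Nat.le_of_dvd (Nat.succ_pos i) hd
      omega
    intro i hi
    rcases Nat.eq_zero_or_pos i with h0 | h0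
    · subst h0
      rw [Finset.sum_range_succ'] at hc
      have h5 : ∑ j ∈ Finset.range m, c (j + 1) ^ p * x ^ (j + 1) = 0 := by
        refine Finset.sum_eq_zero fun j hj => ?_
        rw [h4 j (Finset.mem_range.mp hj), zero_pow hp.out.ne_zero, zero_mul]
      rw [h5, zero_add, pow_zero, mul_one] at hc
      exact pow_eq_zero_iff hp.out.ne_zero |>.mp hc
    · have := h4 (i - 1) (by omega)
      rwa [Nat.sub_add_cancel h0] at this

/-- the span of the `x^i`, `i < p`, over the `p`-th powers -/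
def FH0_T (p : ℕ) (x f : F) : Prop := ∃ c : ℕ → F, f = ∑ i ∈ Finset.range p, c i ^ p * x ^ i

theorem FH0_T_mono (p : ℕ) [hp : Fact p.Prime] (x a : F) (j : ℕ) : FH0_T p x (a ^ p * x ^ j) := by
  refine ⟨fun i => if i = j % p then a * x ^ (j / p) else 0, ?_⟩
  have h1 : ∀ i, (if i = j % p then a * x ^ (j / p) else 0) ^ p * x ^ i =
      if i = j % p then (a * x ^ (j / p)) ^ p * x ^ i else 0 := by
    intro i
    split_ifs
    · rfl
    · rw [zero_pow hp.out.ne_zero, zero_mul]
  rw [Finset.sum_congr rfl (fun i _ => h1 i), Finset.sum_ite_eq',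
    if_pos (Finset.mem_range.mpr (Nat.mod_lt j hp.out.pos)), mul_pow, mul_assoc, ← pow_mul, ← pow_add]
  congr 2
  have := Nat.div_add_mod j p
  rw [mul_comm (j / p) p]
  exact this.symm

theorem FH0_T_add (p : ℕ) [hp : Fact p.Prime] [CharP F p] (x : F) {f g : F} (hf : FH0_T p x f) (hg : FH0_T p x g) :
    FH0_T p x (f + g) := by
  obtain ⟨c, rfl⟩ := hf
  obtain ⟨d, rfl⟩ := hg
  refine ⟨fun i => c i + d i, ?_⟩
  rw [← Finset.sum_add_distrib]
  refine Finset.sum_congr rfl fun i _ => ?_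
  rw [add_pow_char, add_mul]

theorem FH0_T_zero (p : ℕ) [hp : Fact p.Prime] (x : F) : FH0_T p x 0 := by
  have := FH0_T_mono p x 0 0
  rwa [zero_pow hp.out.ne_zero, zero_mul] at this

theorem FH0_T_sum (p : ℕ) [hp : Fact p.Prime] [CharP F p] (x : F) (s : Finset ℕ) (f : ℕ → F)
    (h : ∀ i ∈ s, FH0_T p x (f i)) : FH0_T p x (∑ i ∈ s, f i) := by
  induction s using Finset.induction_on with
  | empty => simpa using FH0_T_zero p x
  | insert a s ha ih =>
    rw [Finset.sum_insert ha]
    exact FH0_T_add p x (h a (Finset.mem_insert_self a s)) (ih fun i hi => h i (Finset.mem_insert_of_mem hi))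

theorem FH0_T_mul (p : ℕ) [hp : Fact p.Prime] [CharP F p] (x : F) {f g : F} (hf : FH0_T p x f) (hg : FH0_T p x g) :
    FH0_T p x (f * g) := by
  obtain ⟨c, rfl⟩ := hf
  obtain ⟨d, rfl⟩ := hg
  rw [Finset.sum_mul]
  refine FH0_T_sum p x _ _ fun i _ => ?_
  rw [Finset.mul_sum]
  refine FH0_T_sum p x _ _ fun j _ => ?_
  have : c i ^ p * x ^ i * (d j ^ p * x ^ j) = (c i * d j) ^ p * x ^ (i + j) := by
    rw [mul_pow, pow_add]; ring
  rw [this]
  exact FH0_T_mono p x _ _

theorem FH0_T_pow (p : ℕ) [hp : Fact p.Prime] (x a : F) : FH0_T p x (a ^ p) := by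
  have := FH0_T_mono p x a 0
  rwa [pow_zero, mul_one] at this

theorem FH0_T_inv (p : ℕ) [hp : Fact p.Prime] [CharP F p] (x : F) {f : F} (hf : FH0_T p x f) :
    FH0_T p x f⁻¹ := by
  by_cases h0 : f = 0
  · rw [h0, inv_zero]; exact FH0_T_zero p x
  have h1 : ∀ n : ℕ, FH0_T p x (f ^ n) := by
    intro n
    induction n with
    | zero =>
      have := FH0_T_pow p x (1 : F)
      rw [one_pow] at this
      rwa [pow_zero]
    | succ n ih => rw [pow_succ]; exact FH0_T_mul p x ih hf
  have h2 := FH0_T_mul p x (h1 (p - 1)) (FH0_T_pow p x f⁻¹)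
  have h3 : f ^ (p - 1) * f⁻¹ ^ p = f⁻¹ := by
    have : p = (p - 1) + 1 := by have := hp.out.pos; omega
    conv_lhs => rw [this]
    rw [Nat.add_sub_cancel, pow_succ, ← mul_assoc, ← mul_pow, mul_inv_cancel₀ h0, one_pow, one_mul]
  rwa [h3] at h2

theorem FH0 : FH0_stmt := by
  intro p hp k F _ _ _ _ _ hF D hD f hf
  have hcF : CharP F p := charP_of_injective_algebraMap (algebraMap k F).injective p
  obtain ⟨x, hx⟩ := aQK0 k F hF
  have hDx : D x ≠ 0 := (aQK3 k F hF D hD x).mpr hx
  have hsep : Algebra.IsSeparable k⟮x⟯ F := hx.2.2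
  have hconst : ∀ c : k, FH0_T p x (algebraMap k F c) := by
    intro c
    obtain ⟨d, hd⟩ := IsAlgClosed.exists_pow_nat_eq c hp.out.pos
    rw [← hd, map_pow]
    exact FH0_T_pow p x _
  have hkx : ∀ a ∈ k⟮x⟯, FH0_T p x a := by
    intro a ha
    induction ha using IntermediateField.adjoin_induction with
    | mem y hy =>
      rw [Set.mem_singleton_iff] at hy
      rw [hy]
      have := FH0_T_mono p x 1 1
      rwa [one_pow, one_mul, pow_one] at this
    | algebraMap c => exact hconst c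
    | add y z _ _ hy hz => exact FH0_T_add p x hy hz
    | inv y _ hy => exact FH0_T_inv p x hy
    | mul y z _ _ hy hz => exact FH0_T_mul p x hy hz
  have hmem : f ∈ k⟮x⟯⟮f ^ p⟯ := by
    have h1 := IntermediateField.adjoin_simple_eq_adjoin_pow_expChar_of_isSeparable' k⟮x⟯ F f p
    rw [← h1]
    exact IntermediateField.mem_adjoin_simple_self _ f
  have hT : FH0_T p x f := by
    refine IntermediateField.adjoin_induction k⟮x⟯ (p := fun y _ => FH0_T p x y) ?_ ?_ ?_ ?_ ?_ hmem
    · intro y hy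
      rw [Set.mem_singleton_iff] at hy
      rw [hy]
      exact FH0_T_pow p x f
    · intro c
      exact hkx c c.2
    · intro y z _ _ hy hz; exact FH0_T_add p x hy hz
    · intro y _ hy; exact FH0_T_inv p x hy
    · intro y z _ _ hy hz; exact FH0_T_mul p x hy hz
  obtain ⟨c, hc⟩ := hT
  obtain ⟨m, hm⟩ : ∃ m, p = m + 1 := ⟨p - 1, by have := hp.out.pos; omega⟩
  have h1 := FH0_der p D x m c
  rw [← hm, ← hc, hf] at h1
  have h2 := (mul_eq_zero.mp h1.symm).resolve_right hDx
  have h3 := FH0_indep p D x hDx m (by omega) (fun i => ((i + 1 : ℕ) : F) * c (i + 1)) h2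
  have h4 : ∀ i < m, c (i + 1) = 0 := by
    intro i hi
    refine (mul_eq_zero.mp (h3 i hi)).resolve_left ?_
    rw [CharP.cast_eq_zero_iff F p]
    intro hd
    have := Nat.le_of_dvd (Nat.succ_pos i) hd
    omega
  refine ⟨c 0, ?_⟩
  rw [hc]
  conv_lhs => rw [hm, Finset.sum_range_succ']
  rw [Finset.sum_eq_zero, zero_add, pow_zero, mul_one, ← hm]
  intro i hi
  rw [h4 i (Finset.mem_range.mp hi), ← hm, zero_pow hp.out.ne_zero, zero_mul]

end

end AN
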