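import Pool.Agent.helper48.AN.SpecZ

/-!
# Project an (MP_263b92_ag), module ZG: constant field extensions
-/

namespace AN

open scoped Classical
open Pool.Agent.helper53.AU

noncomputable section

theorem ZG_mem (hZA1 : ZA1_stmt) (hBC : BC_stmt) (K L : Type) [Field K] [Field L] [Algebra K L] (g : ℕ)
    (γ : Fin g → ℕ) (a : ℕ → LS K) (hK : IsK γ a) (x : LS K) (hx : x ∈ EF γ a) :
    mp (algebraMap K L) x ∈ EF γ (fun r => mp (algebraMap K L) (a r)) := by
  obtain ⟨hK', hAA, -, -, -⟩ := hBC K L (algebraMap K L) g 0 γ a (fun _ => 0) (fun _ => 0) hK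
  obtain ⟨α, hα, β, hβ, hβ0, h⟩ := (hZA1 K g γ a hK x).mp hx
  refine (hZA1 L g γ _ hK' _).mpr ⟨mp (algebraMap K L) α, hAA α hα, mp (algebraMap K L) β, hAA β hβ, ?_, ?_⟩
  · intro h0
    apply hβ0
    apply mp_injective (algebraMap K L).injective
    rw [h0, map_zero]
  · rw [← map_mul, h]

theorem ZG_fin (hKA : KA_stmt) (L : Type) [Field L] (g : ℕ)
    (γ : Fin g → ℕ) (a : ℕ → LS L) (hK : IsK γ a) (α : LS L) (hα : α ∈ AA γ a) : ∃ N : ℕ, ∀ M, N ≤ M →
      α = ∑ r ∈ Finset.range (M + 1), if Gp γ r then 0 else cf α (-(r : ℤ)) • a r := by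
  obtain ⟨N, hN⟩ := exists_lb_nat α
  refine ⟨N, fun M hM => ?_⟩
  refine (hKA L g γ a hK).2.2 α hα M fun r hr _ => hN _ ?_
  omega

theorem ZG (hKA : KA_stmt) (hZA1 : ZA1_stmt) (hBC : BC_stmt) : ZG_stmt := by
  intro K L _ _ _ g γ a hK
  obtain ⟨hK', hAA, -, -, -⟩ := hBC K L (algebraMap K L) g 0 γ a (fun _ => 0) (fun _ => 0) hK
  let j : EF γ a →+* EF γ (fun r => mp (algebraMap K L) (a r)) :=
    { toFun := fun x => ⟨mp (algebraMap K L) (x : LS K), ZG_mem hZA1 hBC K L g γ a hK x x.2⟩
      map_one' := Subtype.ext (map_one _)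
      map_mul' := fun x y => Subtype.ext (map_mul (mp (algebraMap K L)) (x : LS K) (y : LS K))
      map_zero' := Subtype.ext (map_zero _)
      map_add' := fun x y => Subtype.ext (map_add (mp (algebraMap K L)) (x : LS K) (y : LS K)) }
  have hj : ∀ x : EF γ a, ((j x : EF γ (fun r => mp (algebraMap K L) (a r))) : LS L) =
      mp (algebraMap K L) (x : LS K) := fun x => rfl
  refine ⟨j, ?_, ?_, ?_⟩
  · intro c
    apply Subtype.ext
    rw [hj]
    exact mp_C (algebraMap K L) c
  · intro x
    obtain ⟨α, hα, β, hβ, hβ0, h⟩ := (hZA1 L g γ _ hK' x).mp x.2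
    obtain ⟨N₁, h₁⟩ := ZG_fin hKA L g γ _ hK' α hα
    obtain ⟨N₂, h₂⟩ := ZG_fin hKA L g γ _ hK' β hβ
    have hα' := h₁ (max N₁ N₂) (le_max_left _ _)
    have hβ' := h₂ (max N₁ N₂) (le_max_right _ _)
    have hmem : ∀ r, ¬ Gp γ r → a r ∈ EF γ a := by
      intro r hr
      refine IntermediateField.subset_adjoin K _ ?_
      exact Submodule.subset_span ⟨r, hr, rfl⟩
    let v : Fin (max N₁ N₂ + 1) → EF γ a := fun i =>
      if hi : ¬ Gp γ (i : ℕ) then ⟨a i, hmem i hi⟩ else 0
    have hv : ∀ (c : LS L), ((∑ i : Fin (max N₁ N₂ + 1),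
        algebraMap L (EF γ (fun r => mp (algebraMap K L) (a r))) (cf c (-((i : ℕ) : ℤ))) * j (v i) :
          EF γ (fun r => mp (algebraMap K L) (a r))) : LS L) =
        ∑ r ∈ Finset.range (max N₁ N₂ + 1),
          if Gp γ r then 0 else cf c (-(r : ℤ)) • mp (algebraMap K L) (a r) := by
      intro c
      rw [Finset.sum_range, IntermediateField.coe_sum]
      refine Finset.sum_congr rfl fun i _ => ?_
      rw [IntermediateField.coe_mul, hj]
      by_cases hi : Gp γ (i : ℕ)
      · rw [if_pos hi]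
        have : v i = 0 := dif_neg (not_not.mpr hi)
        rw [this]
        simp
      · rw [if_neg hi]
        have : v i = ⟨a i, hmem i hi⟩ := dif_pos hi
        rw [this]
        exact C_mul _ _
    refine ⟨max N₁ N₂ + 1, fun i => cf α (-((i : ℕ) : ℤ)), fun i => cf β (-((i : ℕ) : ℤ)), v, v, ?_, ?_⟩
    · intro h0
      apply hβ0
      rw [hβ', ← hv β, h0]
      rfl
    · apply Subtype.ext
      rw [IntermediateField.coe_mul, hv, hv, ← hα', ← hβ', h]
  · intro n v hv
    rw [Fintype.linearIndependent_iff]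
    intro l hl
    have h1 : ∀ m : ℤ, ∑ i, l i * algebraMap K L (cf ((v i : EF γ a) : LS K) m) = 0 := by
      intro m
      have := congrArg (fun y : EF γ (fun r => mp (algebraMap K L) (a r)) => cf (y : LS L) m) hl
      simp only [IntermediateField.coe_sum, cf_sum] at this
      exact this
    let b := Module.Basis.ofVectorSpace K L
    have h2 : ∀ t, ∀ i, b.repr (l i) t = 0 := by
      intro t
      have h3 : ∑ i, b.repr (l i) t • v i = 0 := by
        apply Subtype.ext
        apply LS.ext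
        intro m
        rw [IntermediateField.coe_sum, cf_sum]
        have h4 := congrArg (fun y => b.repr y t) (h1 m)
        have h5 : ∀ i, l i * algebraMap K L (cf ((v i : EF γ a) : LS K) m) =
            cf ((v i : EF γ a) : LS K) m • l i := fun i => by rw [Algebra.smul_def, mul_comm]
        simp only [h5, map_sum, map_smul, Finsupp.coe_finsetSum, Finset.sum_apply, Finsupp.smul_apply,
          smul_eq_mul, map_zero, Finsupp.coe_zero, Pi.zero_apply] at h4
        refine Eq.trans ?_ h4
        refine Finset.sum_congr rfl fun i _ => ?_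
        rw [mul_comm]
        rfl
      exact Fintype.linearIndependent_iff.mp hv _ h3
    intro i
    have h6 : b.repr (l i) = 0 := by
      ext t
      exact h2 t i
    exact (b.repr.map_eq_zero_iff).mp h6

end

end AN
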